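import Pool.Agent.helper72.UP.Spec

set_option autoImplicit false

namespace Pool.Agent.helper72.UP

open Finset

theorem DEC (hRAT : RAT_stmt) : DEC_stmt := by
  intro n i d hni hi hn
  have hnR : (0 : ℝ) < n := by exact_mod_cast hn
  have hniR : (n : ℝ) ≤ 4 * i := by exact_mod_cast hni
  induction d with
  | zero =>
    have : -(4 * ((0 : ℕ) : ℝ) * (((0 : ℕ) : ℝ) - 1) / n) = 0 := by simp
    rw [this, Real.exp_zero, mul_one, Nat.add_zero]
  | succ d ih =>
    have hu0 : (0 : ℝ) ≤ (uu n i : ℝ) := Nat.cast_nonneg _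
    by_cases h : 2 * (i + d) ≤ n
    · have h1 := hRAT n (i + d) (by omega) h (by omega)
      have h2 : Real.exp (-(2 * (4 * ((i + d : ℕ) : ℝ) - n) / n)) ≤ Real.exp (-(8 * (d : ℝ) / n)) := by
        apply Real.exp_le_exp.mpr
        apply neg_le_neg
        apply div_le_div_of_nonneg_right _ hnR.le
        push_cast
        linarith
      have h3 : Real.exp (-(4 * (d : ℝ) * ((d : ℝ) - 1) / n)) * Real.exp (-(8 * (d : ℝ) / n)) =
          Real.exp (-(4 * ((d + 1 : ℕ) : ℝ) * (((d + 1 : ℕ) : ℝ) - 1) / n)) := by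
        rw [← Real.exp_add]
        congr 1
        push_cast
        ring
      calc (uu n (i + (d + 1)) : ℝ) = (uu n (i + d + 1) : ℝ) := by rw [← add_assoc]
        _ ≤ uu n (i + d) * Real.exp (-(2 * (4 * ((i + d : ℕ) : ℝ) - n) / n)) := h1
        _ ≤ (uu n i * Real.exp (-(4 * (d : ℝ) * ((d : ℝ) - 1) / n))) *
            Real.exp (-(8 * (d : ℝ) / n)) :=
          mul_le_mul ih h2 (Real.exp_pos _).le (mul_nonneg hu0 (Real.exp_pos _).le)
        _ = _ := by rw [mul_assoc, h3]
    · have hz : uu n (i + (d + 1)) = 0 := by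
        unfold uu
        rw [Nat.choose_eq_zero_of_lt (show n / 2 < i + (d + 1) by omega), mul_zero]
      rw [hz, Nat.cast_zero]
      exact mul_nonneg hu0 (Real.exp_pos _).le

end Pool.Agent.helper72.UP
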